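import Mathlib
import Pool.Agent.V11242.KO.Forced
import Pool.Agent.V11242.KO.Ground

/-!
# Consistently, the oscillation reaping number is smaller than `cov(N)`

Add more than the continuum many random reals. A named subset of `ω` is a sequence of measurable
events, and by the theorem of Komlós (for indicator functions) there is a subsequence along which
the relative frequencies converge almost surely. Hence the infinite sets of the ground model form
a witness for the oscillation reaping number, and there are fewer than `cov(N)` many of them.
-/

set_option autoImplicit false

namespace Pool.Agent.Results.MP_177d78_lc.RoscLtCovN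

open Pool.Agent.V11242.KO

/-- (A) There are a set `K` and a ccc notion of forcing `P` all of whose conditions force the
sentence `PsiFor K`. (B) Whenever `PsiFor K` holds, then the oscillation reaping number is smaller
than the covering number of the null ideal. -/
theorem result :
    (∃ (K P : Type) (_ : Preorder P), Nonempty P ∧
      (∀ A : Set P, (∀ p ∈ A, ∀ q ∈ A, p ≠ q → ¬ ∃ r, r ≤ p ∧ r ≤ q) → A.Countable) ∧
      ∀ p : P, p ∈ PsiHolds P K) ∧
    (∀ K : Type, PsiFor K → rOsc < covNull) :=
  ⟨exists_forcing, fun _ h => (rOsc_le h).trans_lt (lt_covNull h)⟩

end Pool.Agent.Results.MP_177d78_lc.RoscLtCovN
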